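import Pool.Agent.TF4.Asm

/-!
# 2F({4}) is in NP and in coNP

`TF4.TwoF4` is the set of the adjacency matrices (bit strings, row by row) of the finite simple graphs which
have a 2-factor without cycles of length 4. We prove that this language and its complement are in NP
(deterministic Turing machines of Mathlib, polynomial time, certificates of polynomial length).

The certificates for graphs without such a 2-factor come from a min-max theorem (first part of `result`).
A cluster of `G` is a complete subgraph on 4 vertices, or a complete bipartite subgraph with one side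
`{w, w'}` and at least two leaves on the other side `L`, with a chosen leaf `c ∈ L`. A unit is a pair
`(S, T)` of sets of vertices. The units of a cluster are: three times `(X, X)` for the complete graph on `X`;
`({l}, {w, w'})` for `l ∈ L \ {c}`, `({w}, L)` and `({w'}, {c})` for the bipartite cluster. An edge `u v` of
`G` in no cluster gives the unit `({u}, {v})`. The auxiliary graph `gg` has two copies of each vertex of `G` and
two adjacent nodes for each unit `(S, T)`, one adjacent to the copies of the elements of `S`, the other to
the copies of the elements of `T`. The theorem: `G` has no 2-factor without 4-cycles if and only if for some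
pairwise edge-disjoint clusters the auxiliary graph has a Tutte violator.
-/

set_option autoImplicit false

namespace Pool.Agent.Results.MP_d66f00_lc.GoodCharacterisation

open Pool.Agent.TFC Pool.Agent.Lib.helper60
open scoped Pointwise

/-- the units of the edges of `G` in no cluster of `C`: for an edge `u v` the pair `({u}, {v})` -/
noncomputable def edgeUnits {V : Type} [Fintype V] [DecidableEq V] (G : SimpleGraph V)
    (C : List (CC V)) : List (Finset V × Finset V) := by
  classical
  exact List.map (fun e : Sym2 V => ({(Quot.out e).1}, {(Quot.out e).2}))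
    (Finset.univ.filter fun e : Sym2 V => e ∈ G.edgeSet ∧ ∀ c ∈ C, e ∉ c.clu.edges).toList

/-- all units: those of the clusters of `C` and those of the other edges of `G` -/
noncomputable def allUnits {V : Type} [Fintype V] [DecidableEq V] (G : SimpleGraph V)
    (C : List (CC V)) : List (Finset V × Finset V) := C.flatMap CC.units ++ edgeUnits G C

section aux

variable {V : Type} [DecidableEq V]

lemma Ue_eq (e : Sym2 V) : Ue e = Un {(Quot.out e).1} {(Quot.out e).2} := by
  have he : e = s((Quot.out e).1, (Quot.out e).2) := (Quot.out_eq e).symm
  ext x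
  constructor
  · rintro (h | ⟨u, v, h1, h2⟩)
    · exact Or.inl h
    · right
      rw [he, Sym2.eq_iff] at h1
      refine ⟨_, Finset.mem_singleton_self _, _, Finset.mem_singleton_self _, ?_⟩
      rcases h1 with ⟨h3, h4⟩ | ⟨h3, h4⟩
      · rw [h2, h3, h4]
      · rw [h2, h3, h4, add_comm]
  · rintro (h | ⟨s, hs, t, ht, h⟩)
    · exact Or.inl h
    · right
      rw [Finset.mem_singleton] at hs ht
      exact ⟨(Quot.out e).1, (Quot.out e).2, he, by rw [h, hs, ht]⟩

lemma sum_list (l : List (Sym2 V)) (hl : l.Nodup) :
    sumU (l.map fun e => (({(Quot.out e).1}, {(Quot.out e).2}) : Finset V × Finset V)) =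
      ∑ e ∈ l.toFinset, Ue e := by
  induction l with
  | nil => simp [sumU, Set.singleton_zero]
  | cons a l ih =>
    rw [List.nodup_cons] at hl
    rw [List.toFinset_cons, Finset.sum_insert (by simpa using hl.1), List.map_cons, sumU, ih hl.2, Ue_eq a]

end aux

/-- **2F({4}) is in NP and coNP, with a min-max theorem.** -/
theorem result :
    (∀ (V : Type) [Fintype V] [DecidableEq V] (G : SimpleGraph V),
      (¬ ∃ F : SimpleGraph V, TF4.IsFac G F) ↔
        ∃ C : List (CC V),
          (∀ c ∈ C, c.Valid ∧ ∀ e ∈ c.clu.edges, e ∈ G.edgeSet) ∧
          (C.Pairwise fun c c' => Disjoint c.clu.edges c'.clu.edges) ∧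
          ∃ A, (gg (allUnits G C)).IsTutteViolator A) ∧
    InNP TF4.TwoF4 ∧ InNP TF4.TwoF4ᶜ := by
  refine ⟨?_, TF4.yes_np, TF4.no_np⟩
  intro V _ _ G
  classical
  rw [← TF4.fac_iff]
  have hnl : NoLoop G.edgeFinset := by
    intro e he
    exact G.not_isDiag_of_mem_edgeFinset he
  have hiff := main_thm G.edgeFinset hnl
  have key : ∀ C : List (CC V), two ∉ sumU (C.flatMap CC.units) +
        ∑ e ∈ G.edgeFinset.filter (fun e => ∀ c ∈ C, e ∉ c.clu.edges), Ue e ↔
      ∃ A, (gg (allUnits G C)).IsTutteViolator A := by
    intro C
    have h1 : sumU (C.flatMap CC.units) +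
        ∑ e ∈ G.edgeFinset.filter (fun e => ∀ c ∈ C, e ∉ c.clu.edges), Ue e = sumU (allUnits G C) := by
      rw [allUnits, sumU_append]
      congr 1
      rw [edgeUnits]
      rw [sum_list _ (Finset.nodup_toList _), Finset.toList_toFinset]
      congr 1
      ext e
      simp
    rw [h1, gg_iff, SimpleGraph.tutte]
    push Not
    rfl
  constructor
  · intro h
    obtain ⟨C, h1, h2, h3⟩ := hiff.1 (by simpa using h)
    refine ⟨C, fun c hc => ⟨(h1 c hc).1, fun e he => ?_⟩, h2, (key C).1 h3⟩
    have := (h1 c hc).2 he
    simpa using this
  · rintro ⟨C, h1, h2, h3⟩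
    have := hiff.2 ⟨C, fun c hc => ⟨(h1 c hc).1, fun e he => ?_⟩, h2, (key C).2 h3⟩
    · simpa using this
    · have := (h1 c hc).2 e he
      simpa using this

end Pool.Agent.Results.MP_d66f00_lc.GoodCharacterisation
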