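import Pool.Agent.PFM.M23
import Pool.Agent.PFM.M24

/-!
# 2F({4}) is in P

`TwoF S` is the set of the adjacency matrices (bit strings, row by row) of the finite simple graphs which have a 2-factor
(`TF34.Fac`: a spanning subgraph in which every vertex has exactly two neighbours) without cycles of length in `S`. We prove
that `TwoF {4}` is decided by a deterministic Turing machine (of Mathlib) in polynomial time.
-/

set_option autoImplicit false

namespace Pool.Agent.Results.MP_d66f00_lc.PolynomialTime

open Pool.Agent.Lib.helper60

/-- 2F(S) as a language: adjacency matrices of the graphs with a 2-factor without cycles of length in `S` -/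
def TwoF (S : Set ℕ) : Set (List Bool) :=
  {w | ∃ (n : ℕ) (G : SimpleGraph (Fin n)), w = TF4.code G ∧ ∃ F, TF34.Fac S G F}

lemma twoF_four : TwoF {4} = TF4.TwoF4 := by
  ext w
  simp only [TwoF, TF4.TwoF4, TF34.fac_four]

/-- **2F({4}) is solvable in polynomial time.** -/
theorem result : InP (TwoF {4}) := by
  rw [twoF_four]
  exact Pool.Agent.PF4.inP_of_LP fun _ _ _ _ _ _ _ _ _ _ wa => Pool.Agent.PF4.XLR.lp wa

end Pool.Agent.Results.MP_d66f00_lc.PolynomialTime
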