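import Pool.Agent.PFN.M32

/-!
# 2F({3,4}) is in P

`TwoF S` is the set of the adjacency matrices (bit strings, row by row) of the finite simple graphs which have a 2-factor
(`TF34.Fac`: a spanning subgraph in which every vertex has exactly two neighbours) without cycles of length in `S`. We prove
that `TwoF {3, 4}` is decided by a deterministic Turing machine (of Mathlib) in polynomial time: it can be decided in
polynomial time whether a graph has a 2-factor all of whose cycles have length at least 5.
-/

set_option autoImplicit false

namespace Pool.Agent.Results.MP_d66f00_lc.PolynomialTime34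

open Pool.Agent.Lib.helper60

/-- 2F(S) as a language: adjacency matrices of the graphs with a 2-factor without cycles of length in `S` -/
def TwoF (S : Set ℕ) : Set (List Bool) :=
  {w | ∃ (n : ℕ) (G : SimpleGraph (Fin n)), w = TF4.code G ∧ ∃ F, TF34.Fac S G F}

lemma twoF_three_four : TwoF {3, 4} = Pool.Agent.P34.TwoF34 := by
  ext w
  simp only [TwoF, Pool.Agent.P34.TwoF34, TF34.fac_three_four]
  constructor
  · rintro ⟨n, G, h, F, hF⟩
    exact ⟨n, G, h, F, hF.le, hF.two, hF.free3, hF.free⟩
  · rintro ⟨n, G, h, F, hF⟩
    exact ⟨n, G, h, F, ⟨hF.le, hF.two, hF.free4⟩, hF.free3⟩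

/-- **2F({3,4}) is solvable in polynomial time.** -/
theorem result : InP (TwoF {3, 4}) := by
  rw [twoF_three_four]
  exact Pool.Agent.P34.inP_two34

end Pool.Agent.Results.MP_d66f00_lc.PolynomialTime34
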