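import Pool.Agent.TF34.Asm

/-!
# 2F({3,4}) is in NP and in coNP

`TF34.TwoF S` is the set of the adjacency matrices (bit strings, row by row) of the finite simple graphs which
have a 2-factor without cycles of length in `S`. We prove that `TwoF {3, 4}` and its complement are in NP
(deterministic Turing machines of Mathlib, polynomial time, certificates of polynomial length).

The certificates for graphs without such a 2-factor come from a min-max theorem (first part of `result`).
A cluster of `G` is one of the following subgraphs, with some chosen vertices: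
* `k4 a b c v`: the complete graph on four vertices; units `({a}, {v})`, `({b}, {a, b, v})`, `({c}, {a, b, c, v})`;
* `k2 w w' c L`: all edges between `{w, w'}` and `L ∪ {c}`, `c ∉ L`, `L` not empty; units `({l}, {w, w'})` for `l ∈ L`,
  `({w}, L ∪ {c})`, `({w'}, {c})`;
* `k11b w w' L`: all edges between `{w, w'}` and `L`, and `w w'`, `L` not empty; units `({l}, {w, w'})` for `l ∈ L`,
  `({w}, L ∪ {w'})`;
* `k11c x y c L`: all edges between `{x, y}` and `L ∪ {c}`, and `x y`, `c ∉ L`; units `({l}, {x, y})` for `l ∈ L`,
  `({x}, L ∪ {c, y})`, `({y}, {c, x})`.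
An edge `u v` of `G` in no cluster gives the unit `({u}, {v})`. The auxiliary graph `gg` has two copies of each vertex
of `G` and two adjacent nodes for each unit `(S, T)`, one adjacent to the copies of the elements of `S`, the other to
the copies of the elements of `T`. The theorem: `G` has no 2-factor without cycles of length 3 and 4 if and only if for
some pairwise edge-disjoint clusters the auxiliary graph has a Tutte violator.
-/

set_option autoImplicit false

namespace Pool.Agent.Results.MP_d66f00_lc.TrianglesAndSquares

open Pool.Agent.TFC Pool.Agent.Lib.helper60 TF34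
open scoped Pointwise

/-- the units of the edges of `G` in no cluster of `C`: for an edge `u v` the pair `({u}, {v})` -/
noncomputable def edgeUnits {V : Type} [Fintype V] [DecidableEq V] (G : SimpleGraph V)
    (C : List (CC34 V)) : List (Finset V × Finset V) := by
  classical
  exact List.map (fun e : Sym2 V => ({(Quot.out e).1}, {(Quot.out e).2}))
    (Finset.univ.filter fun e : Sym2 V => e ∈ G.edgeSet ∧ ∀ c ∈ C, e ∉ c.edges).toList

/-- all units: those of the clusters of `C` and those of the other edges of `G` -/
noncomputable def allUnits {V : Type} [Fintype V] [DecidableEq V] (G : SimpleGraph V)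
    (C : List (CC34 V)) : List (Finset V × Finset V) := C.flatMap CC34.units ++ edgeUnits G C

section aux

variable {V : Type} [DecidableEq V]

lemma Ue_eq (e : Sym2 V) : Ue e = Un {(Quot.out e).1} {(Quot.out e).2} := by
  have he : e = s((Quot.out e).1, (Quot.out e).2) := (Quot.out_eq e).symm
  ext x
  constructor
  · rintro (h | ⟨u, v, h1, h2⟩)
    · exact Or.inl h
    · right
      rw [he, Sym2.eq_iff] at h1
      refine ⟨_, Finset.mem_singleton_self _, _, Finset.mem_singleton_self _, ?_⟩
      rcases h1 with ⟨h3, h4⟩ | ⟨h3, h4⟩
      · rw [h2, h3, h4]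
      · rw [h2, h3, h4, add_comm]
  · rintro (h | ⟨s, hs, t, ht, h⟩)
    · exact Or.inl h
    · right
      rw [Finset.mem_singleton] at hs ht
      exact ⟨(Quot.out e).1, (Quot.out e).2, he, by rw [h, hs, ht]⟩

lemma sum_list (l : List (Sym2 V)) (hl : l.Nodup) :
    sumU (l.map fun e => (({(Quot.out e).1}, {(Quot.out e).2}) : Finset V × Finset V)) =
      ∑ e ∈ l.toFinset, Ue e := by
  induction l with
  | nil => simp [sumU, Set.singleton_zero]
  | cons a l ih =>
    rw [List.nodup_cons] at hl
    rw [List.toFinset_cons, Finset.sum_insert (by simpa using hl.1), List.map_cons, sumU, ih hl.2, Ue_eq a]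

end aux

/-- **2F({3,4}) is in NP and coNP, with a min-max theorem.** -/
theorem result :
    (∀ (V : Type) [Fintype V] [DecidableEq V] (G : SimpleGraph V),
      (¬ ∃ F : SimpleGraph V, Fac {3, 4} G F) ↔
        ∃ C : List (CC34 V),
          (∀ c ∈ C, c.Valid ∧ ∀ e ∈ c.edges, e ∈ G.edgeSet) ∧
          (C.Pairwise fun c c' => Disjoint c.edges c'.edges) ∧
          ∃ A, (gg (allUnits G C)).IsTutteViolator A) ∧
    InNP (TwoF {3, 4}) ∧ InNP (TwoF {3, 4})ᶜ := by
  refine ⟨?_, yes_np, no_np⟩
  intro V _ _ G
  classical
  have e0 : (∃ F : SimpleGraph V, Fac {3, 4} G F) ↔ ∃ F : SimpleGraph V, IsFac34 G F := by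
    simp only [fac_three_four]
  rw [e0, ← TF34.fac_iff]
  have hnl : NoLoop G.edgeFinset := by
    intro e he
    exact G.not_isDiag_of_mem_edgeFinset he
  have hiff := main_thm34 G.edgeFinset hnl
  have key : ∀ C : List (CC34 V), two ∉ sumU (C.flatMap CC34.units) +
        ∑ e ∈ G.edgeFinset.filter (fun e => ∀ c ∈ C, e ∉ c.edges), Ue e ↔
      ∃ A, (gg (allUnits G C)).IsTutteViolator A := by
    intro C
    have h1 : sumU (C.flatMap CC34.units) +
        ∑ e ∈ G.edgeFinset.filter (fun e => ∀ c ∈ C, e ∉ c.edges), Ue e = sumU (allUnits G C) := by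
      rw [allUnits, sumU_append]
      congr 1
      rw [edgeUnits]
      rw [sum_list _ (Finset.nodup_toList _), Finset.toList_toFinset]
      congr 1
      ext e
      simp
    rw [h1, gg_iff, SimpleGraph.tutte]
    push Not
    rfl
  constructor
  · intro h
    obtain ⟨C, h1, h2, h3⟩ := hiff.1 (by simpa using h)
    refine ⟨C, fun c hc => ⟨(h1 c hc).1, fun e he => ?_⟩, h2, (key C).1 h3⟩
    have := (h1 c hc).2 he
    simpa using this
  · rintro ⟨C, h1, h2, h3⟩
    have := hiff.2 ⟨C, fun c hc => ⟨(h1 c hc).1, fun e he => ?_⟩, h2, (key C).2 h3⟩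
    · simpa using this
    · have := (h1 c hc).2 e he
      simpa using this

end Pool.Agent.Results.MP_d66f00_lc.TrianglesAndSquares
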